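import Pool.Agent.Helper855.RcMain

set_option autoImplicit false

namespace Pool.Agent.Results.MP_0e403a_al.SpCyclic

open Filter Topology Polynomial

/-- `c(Sp(2n, K))`: the proportion of cyclic matrices (minimal polynomial equal to the
characteristic polynomial) in the full isometry group `Sp(2n, K)` of the standard non-degenerate
alternating form on `K ^ (2n)`. -/
noncomputable def cyclicProportion (K : Type) [Field K] (n : ℕ) : ℝ :=
  (Nat.card {g : Matrix (Fin n ⊕ Fin n) (Fin n ⊕ Fin n) K //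
      g ∈ Matrix.symplecticGroup (Fin n) K ∧ minpoly K g = g.charpoly} : ℝ) /
    (Nat.card (Matrix.symplecticGroup (Fin n) K) : ℝ)

/-- Write `C(Sp; q)` for the limit of `cyclicProportion K n` as `n → ∞`, `K` the field with `q`
elements.  The limit exists and is positive for every odd prime power `q`; every rational function
`P / Q` with real coefficients takes the value `C(Sp; q)` at only finitely many odd prime powers
`q`; in particular no `R` in `ℚ(t)` satisfies `C(Sp; q) = R(q)` for all odd prime powers `q`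
(let alone for all prime powers). -/
theorem result :
    (∀ (K : Type) [Field K] [Finite K], (2 : K) ≠ 0 →
      ∃ c : ℝ, 0 < c ∧ Tendsto (cyclicProportion K) atTop (𝓝 c)) ∧
    (∀ P Q : ℝ[X], Q ≠ 0 →
      {q : ℕ | ∃ (K : Type) (_ : Field K) (_ : Finite K), Nat.card K = q ∧ (2 : K) ≠ 0 ∧
        Tendsto (cyclicProportion K) atTop (𝓝 (P.eval (q : ℝ) / Q.eval (q : ℝ)))}.Finite) ∧
    (¬ ∃ R : RatFunc ℚ, ∀ (K : Type) [Field K] [Finite K], (2 : K) ≠ 0 →
      Tendsto (cyclicProportion K) atTop
        (𝓝 (RatFunc.eval (algebraMap ℚ ℝ) (Nat.card K : ℝ) R))) := by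
  have hfin : ∀ P Q : ℝ[X], Q ≠ 0 →
      {q : ℕ | ∃ (K : Type) (_ : Field K) (_ : Finite K), Nat.card K = q ∧ (2 : K) ≠ 0 ∧
        Tendsto (cyclicProportion K) atTop (𝓝 (P.eval (q : ℝ) / Q.eval (q : ℝ)))}.Finite :=
    fun P Q hQ => Pool.Agent.Helper855.Rc.finite_agree P Q hQ
  refine ⟨?_, hfin, ?_⟩
  · intro K _ _ h2
    exact ⟨_, Real.exp_pos _, Pool.Agent.Helper855.Rc.limit K h2⟩
  · rintro ⟨R, hR⟩
    have hQ : (R.denom.map (algebraMap ℚ ℝ)) ≠ 0 :=
      (Polynomial.map_ne_zero_iff (algebraMap ℚ ℝ).injective).mpr (RatFunc.denom_ne_zero R)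
    have h1 := hfin (R.num.map (algebraMap ℚ ℝ)) (R.denom.map (algebraMap ℚ ℝ)) hQ
    have h3 : {p : ℕ | p.Prime ∧ 3 ≤ p}.Infinite := by
      rw [← Nat.frequently_atTop_iff_infinite]
      have h4 : ∃ᶠ p in atTop, Nat.Prime p :=
        Nat.frequently_atTop_iff_infinite.mpr Nat.infinite_setOfPred_prime
      exact h4.and_eventually (eventually_ge_atTop 3)
    apply h3
    refine h1.subset ?_
    rintro p ⟨hp, hp3⟩
    have hfact : Fact p.Prime := ⟨hp⟩
    have hcard : Nat.card (ZMod p) = p := Nat.card_zmod p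
    have h2 : (2 : ZMod p) ≠ 0 := by
      intro h
      have h5 : ((2 : ℕ) : ZMod p) = 0 := by exact_mod_cast h
      rw [ZMod.natCast_eq_zero_iff] at h5
      have := Nat.le_of_dvd (by norm_num) h5
      omega
    refine ⟨ZMod p, inferInstance, inferInstance, hcard, h2, ?_⟩
    have h6 := hR (ZMod p) h2
    rw [hcard, RatFunc.eval] at h6
    rw [Polynomial.eval_map, Polynomial.eval_map]
    exact h6

end Pool.Agent.Results.MP_0e403a_al.SpCyclic
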